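import Mathlib
import Pool.Agent.P.MP_0fa314_co.Construction

namespace Pool.Agent.Results.MP_0fa314_co.Disproof

/-- `OddCycleFree t G` says that `G` contains none of the cycles `C_3, C_5, ..., C_{2t+1}`
as a (not necessarily induced) subgraph. -/
def OddCycleFree (t : ℕ) {V : Type} (G : SimpleGraph V) : Prop :=
  ∀ i : ℕ, 1 ≤ i → i ≤ t → (SimpleGraph.cycleGraph (2 * i + 1)).Free G

open Pool.Agent.P.MP_0fa314_co in
/-- For every `t ≥ 1` and every bound `M` there is a finite graph `G` without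
`C_3, ..., C_{2t+3}`, of minimum degree at least `|G| / (24 t + 12)`, that has no homomorphism
to a graph without `C_3, ..., C_{2t+1}` on at most `M` vertices. -/
theorem result (t : ℕ) (ht : 1 ≤ t) (M : ℕ) :
    ∃ (n : ℕ) (G : SimpleGraph (Fin n)) (_ : DecidableRel G.Adj),
      OddCycleFree (t + 1) G ∧
      (1 / (24 * (t : ℝ) + 12)) * (n : ℝ) ≤ (G.minDegree : ℝ) ∧
      ∀ (W : Type) [Fintype W] (Γ : SimpleGraph W),
        Fintype.card W ≤ M → OddCycleFree t Γ → IsEmpty (G →g Γ) := by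
  classical
  have _ := ht
  set m : ℕ := 2 ^ M + 1 with hm
  have hm2 : 1 < m := by
    have : 0 < 2 ^ M := Nat.two_pow_pos M
    omega
  let s0 : S m := ⟨(⟨0, by omega⟩, ⟨1, hm2⟩), Fin.mk_lt_mk.mpr Nat.zero_lt_one⟩
  let e := (G t m).overFinIso rfl
  refine ⟨Fintype.card (V t m), (G t m).overFin rfl, inferInstance, ?_, ?_, ?_⟩
  · intro i h1 hi
    exact (SimpleGraph.free_congr SimpleGraph.Iso.refl e).mp (G_free s0 i h1 hi)
  · rw [← e.minDegree_eq]
    have : Nonempty (V t m) := ⟨(⟨0, by omega⟩, Sum.inl s0)⟩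
    obtain ⟨x, hx⟩ := (G t m).exists_minimal_degree_vertex
    have h1 := degree_ge x
    have h2 := card_V t m
    rw [hx]
    have h3 : Fintype.card (V t m) ≤ (24 * t + 12) * (G t m).degree x := by nlinarith
    have h4 : (Fintype.card (V t m) : ℝ) ≤ (24 * (t : ℝ) + 12) * ((G t m).degree x : ℝ) := by
      exact_mod_cast h3
    have h5 : (0 : ℝ) < 24 * (t : ℝ) + 12 := by positivity
    rw [div_mul_eq_mul_div, one_mul, div_le_iff₀ h5]
    linarith
  · intro W _ Γ hW hΓ
    refine ⟨fun φ => ?_⟩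
    have hlt : 2 ^ Fintype.card W < m := by
      have : 2 ^ Fintype.card W ≤ 2 ^ M := Nat.pow_le_pow_right (by omega) hW
      omega
    obtain ⟨i, h1, hi, hc⟩ := image_has_odd_cycle hlt Γ (φ.comp e.toHom)
    exact hΓ i h1 hi hc

end Pool.Agent.Results.MP_0fa314_co.Disproof
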